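import Pool.Agent.helper37.NA.Spec

/-!
# MP_baa4d7_al, THEOREM NA, row NQU: uniqueness of the block of `L ⊓ nz E`
-/

set_option autoImplicit false

namespace Pool.Agent.NAB

open Pool.Agent.helper58.DC Pool.Agent.DI Pool.Agent.GR Pool.Agent.OB Pool.Agent.DR Pool.Agent.FI Pool.Agent.FI3 Pool.Agent.FI4 Pool.Agent.FI4I Pool.Agent.LE Pool.Agent.L5

section

variable {G : Type} [Group G]

theorem NQU_nz {E : Subgroup G} {l : G} (h : cjS l E = E) : l ∈ nz E := by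
  refine Subgroup.mem_normalizer_iff.2 fun x => ?_
  constructor
  · intro hx
    have h1 : l * x * l⁻¹ ∈ cjS l E := by
      rw [mem_cjS]
      have h2 : l⁻¹ * (l * x * l⁻¹) * l = x := by group
      rwa [h2]
    rwa [h] at h1
  · intro hx
    have h1 : l * x * l⁻¹ ∈ cjS l E := by
      rw [h]
      exact hx
    rw [mem_cjS] at h1
    have h2 : l⁻¹ * (l * x * l⁻¹) * l = x := by group
    rwa [h2] at h1

theorem NQU_cjF [Finite G] {L : Subgroup G} {ψ : G → ℂ} (h : ψ ∈ IrrOn L) {l : G} (hl : l ∈ L) : cjF l ψ = ψ := by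
  funext x
  rw [cjF_apply]
  have h1 := IrrOn_conj h (L.inv_mem hl) x
  rwa [inv_inv] at h1

theorem NQU_od (l z : G) : orderOf (l * z * l⁻¹) = orderOf z := by
  have h1 := orderOf_injective (MulAut.conj l).toMonoidHom (MulAut.conj l).injective z
  exact h1

end

theorem NQU (hNEG : NEG_stmt) (hNEC : NEC_stmt) (hNUD : NUD_stmt) (hNUB : NUB_stmt) (hNQD : NQD_stmt) (hNQ5 : NQ5_stmt)
    (hDUN : DUN_stmt) (hCJG : CJG_stmt) (hTRN : Pool.Agent.FI.TRN_stmt) : NQU_stmt := by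
  intro p e m M hM hme G _ _ L E ψ hψ η hη
  have hp : p.Prime := hM.pr
  obtain ⟨hηH, hSB, z, x, hU, hE⟩ := hη
  have hHL : L ⊓ nz E ≤ L := inf_le_left
  have key : ∀ η' ∈ BE p e m M L (L ⊓ nz E) E ψ, SB M (L ⊓ nz E) η η' := by
    rintro η' ⟨hηH', hSB', z', x', hU', hE'⟩
    obtain ⟨D, y, hD, hzD, hzc, hcd⟩ := (hNUD p e m M hM G (L ⊓ nz E) η hηH z x hU).2
    obtain ⟨D', y', hD', hzD', hzc', hcd'⟩ := (hNUD p e m M hM G (L ⊓ nz E) η' hηH' z' x' hU').2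
    obtain ⟨y1, hD1⟩ := hNQD p e m M hM hme G L E η hηH ψ hψ hSB D y hD z hzD hzc hU.od hcd hE
    obtain ⟨y1', hD1'⟩ := hNQD p e m M hM hme G L E η' hηH' ψ hψ hSB' D' y' hD' z' hzD' hzc' hU'.od hcd' hE'
    obtain ⟨l, hl, hlD⟩ := (hDUN p M hM G L ψ hψ D y1 hD1).1 D' y1' hD1'
    obtain ⟨c1, c2, c3, c4⟩ := hNEC p e m hp hme G D' hD'.pg hcd' z' hzD' hzc' hU'.od
    have hlz : l * z * l⁻¹ ∈ D' := by
      rw [← hlD]
      exact ⟨z, hzD, rfl⟩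
    have e1 : Eg p e (l * z * l⁻¹) = Eg p e z' := c1 _ hlz (by rw [NQU_od, hU.od])
    rw [(hNEG p e hp G z).1 l, hE, hE'] at e1
    have hlH : l ∈ L ⊓ nz E := ⟨hl, NQU_nz e1⟩
    obtain ⟨j1, j2, j3, j4, j5, j6, -⟩ := hCJG G M p l (L ⊓ nz E)
    have hD2 : DefL p M (L ⊓ nz E) η D' (l * y * l⁻¹) := by
      have h1 := j4 η D y hD
      have h2 : funMap (MulAut.conj l) η = η := NQU_cjF hηH hlH
      rwa [(j6 hlH η).2, h2, hlD] at h1
    refine hNQ5 p M hM G L (L ⊓ nz E) D' hHL ?_ η hηH η' hηH' _ _ hD2 hD' ψ hSB hSB'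
    rw [hE'] at c2
    exact inf_le_inf_left L c2
  have hset : BE p e m M L (L ⊓ nz E) E ψ = Bl M (L ⊓ nz E) η := by
    ext η'
    constructor
    · intro h
      exact ⟨h.1, (key η' h).symm⟩
    · rintro ⟨h1, h2⟩
      refine ⟨h1, ?_, z, x, (hNUB p e m M hM G (L ⊓ nz E) η z x hU).1 η' h2.symm, hE⟩
      exact ((hTRN G M (L ⊓ nz E) L hHL η' η ψ h1.1 hηH.1 h2).2).1 hSB
  refine ⟨hset, ?_⟩
  unfold lE Le
  rw [hset]

end Pool.Agent.NAB
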