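import Pool.Agent.helper97.NA.SpecE

/-!
# MP_baa4d7_al, THEOREM NA, row XTB: the trace `tB`
-/

set_option autoImplicit false

namespace Pool.Agent.NAB

open Pool.Agent.helper58.DC Pool.Agent.DI Pool.Agent.GR Pool.Agent.OB Pool.Agent.DR Pool.Agent.FI Pool.Agent.FI3 Pool.Agent.FI4 Pool.Agent.FI4I Pool.Agent.FI4E Pool.Agent.LE Pool.Agent.L5

theorem XTB (hTSI : TSI_stmt) (hTSJ : TSJ_stmt) (hXUA : XUA_stmt) : XTB_stmt := by
  intro p e m M hM G _ _ L K E ψ α
  have hinv : ∀ (l : G) (Q : Subgroup G), cjS l⁻¹ (cjS l Q) = Q := by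
    intro l Q
    rw [← am_conj, ← am_conj, ← am_mul, ← map_mul, inv_mul_cancel, map_one, am_one]
  have hone : ∀ η : G → ℂ, funMap (1 : MulAut G) η = η := by
    intro η
    funext x
    simp only [funMap]
    rw [inv_one]
    rfl
  refine ⟨?_, ?_, ?_, ?_⟩
  · intro l hl g
    have hset : funMap (MulAut.conj l) '' BE p e m M L K E ψ = BE p e m M L (cjS l K) (cjS l E) ψ := by
      ext η
      constructor
      · rintro ⟨η', h, rfl⟩
        exact (hXUA p e m M hM G α).2.2.2 L K E ψ l hl η' h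
      · intro h
        have h1 := (hXUA p e m M hM G α).2.2.2 L (cjS l K) (cjS l E) ψ l⁻¹ (L.inv_mem hl) η h
        rw [hinv, hinv] at h1
        refine ⟨_, h1, ?_⟩
        show funMap (MulAut.conj l) (funMap (MulAut.conj l⁻¹) η) = η
        rw [← FI4E.funMap_mul, ← map_mul, mul_inv_cancel, map_one, hone]
    have h2 := (hTSJ p M G K (al α (l⁻¹ * g * α l)) (MulAut.conj l)).1 (BE p e m M L K E ψ)
    rw [hset, conj_al] at h2
    have h3 : l * (l⁻¹ * g * α l) * (α l)⁻¹ = g := by group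
    rw [h3] at h2
    exact h2
  · intro hK n hn
    exact (hTSI p G K α hK n hn).2 _ fun η h => h.1
  · unfold tB tS lE
    simp only [hone]
  · intro φ hφ
    have hset : BE p e m M L K E φ = BE p e m M L K E ψ := by
      ext η
      constructor
      · rintro ⟨h1, h2, h3⟩
        exact ⟨h1, h2.trans hφ, h3⟩
      · rintro ⟨h1, h2, h3⟩
        exact ⟨h1, h2.trans hφ.symm, h3⟩
    unfold tB
    rw [hset]

end Pool.Agent.NAB
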